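import Pool.Agent.Helper46.NU.Goals1

set_option autoImplicit false

/-!
# Packet SLA of MP_1fe1ca_lc
-/

open MeasureTheory Filter Topology Set
open scoped ENNReal

noncomputable section

namespace NU.PkSLA

variable {S : Sys}

/-- constant clopen function -/
def cst (S : Sys) (v : Bool) : CF S := ⟨fun _ => v, ∅, fun _ _ _ => rfl⟩

lemma nul_iUnion {ι : Type} [Countable ι] {K : ι → Set (Pt S)} (h : ∀ i, Nul S (K i)) :
    Nul S (⋃ i, K i) := by
  have h1 : ∀ᶠ φ in residual (Ph S), ∀ i, pr S φ (K i) = 0 := eventually_countable_forall.2 h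
  filter_upwards [h1] with φ hφ
  have h2 : {ω | zz S φ ω ∈ ⋃ i, K i} = ⋃ i, {ω | zz S φ ω ∈ K i} := by
    ext ω; simp
  rw [pr, h2]
  exact measure_iUnion_null hφ

lemma meas_beta {B : Set (Pt S × (ℕ → Bool))} (hB : MeasurableSet B) :
    Measurable fun z : Pt S => coin {x | (z, x) ∈ B} :=
  measurable_measure_prodMk_left hB

lemma meas_diag {B : Set (Pt S × (ℕ → Bool))} (hB : MeasurableSet B) (ξ : S.C) :
    MeasurableSet {z : Pt S | (z, z ξ) ∈ B} := by
  have h : Measurable fun z : Pt S => (z, z ξ) := measurable_id.prodMk (measurable_pi_apply ξ)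
  exact h hB

/-- geometric tail -/
lemma tail_small (δ : ℝ≥0∞) (hδ : δ ≠ 0) : ∀ᶠ n : ℕ in atTop, rho {s | 2 ^ n < s.1} ≤ δ := by
  have hanti : Antitone fun n : ℕ => ({s | 2 ^ n < s.1} : Set (ℕ × (ℕ → Bool))) := by
    intro a b hab s hs
    have : 2 ^ a ≤ 2 ^ b := Nat.pow_le_pow_right (by norm_num) hab
    simp only [mem_ofPred_eq] at hs ⊢
    omega
  have hm : ∀ n : ℕ, MeasurableSet ({s | 2 ^ n < s.1} : Set (ℕ × (ℕ → Bool))) := by
    intro n
    exact measurable_fst (measurableSet_Ioi (a := 2 ^ n))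
  have ht := tendsto_measure_iInter_atTop (μ := rho) (fun n => (hm n).nullMeasurableSet) hanti
    ⟨0, measure_ne_top _ _⟩
  have hemp : (⋂ n : ℕ, ({s | 2 ^ n < s.1} : Set (ℕ × (ℕ → Bool)))) = ∅ := by
    ext s
    simp only [mem_iInter, mem_ofPred_eq, mem_empty_iff_false, iff_false, not_forall, not_lt]
    exact ⟨s.1, Nat.lt_two_pow_self.le⟩
  rw [hemp, measure_empty] at ht
  have := ht.eventually (Iic_mem_nhds (pos_iff_ne_zero.2 hδ))
  exact this

lemma eval_marginal (ξ : S.C) (A : Set (ℕ × (ℕ → Bool))) (hA : MeasurableSet A) :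
    PP S {ω | ω ξ ∈ A} = rho A := by
  have h := measurePreserving_eval_infinitePi (fun _ : S.C => rho) ξ
  exact h.measure_preimage hA.nullMeasurableSet

theorem sla (star : G_STAR) (bm : G_BM) (cyl : G_CYL) (bai : G_BAI) (flp : G_FLP) (mz : G_MZ) :
    G_SLA := by
  classical
  intro S ξ hξ hsee B hB hblk hind
  -- residual basics
  have : BaireSpace (Ph S) := bai (S.C × ℕ) (CF S)
  have : Nonempty (Ph S) := ⟨fun _ => cst S false⟩
  have hne : (residual (Ph S)).NeBot := by
    refine ⟨fun h => ?_⟩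
    have h1 : (∅ : Set (Ph S)) ∈ residual (Ph S) := by rw [h]; exact mem_bot
    have h2 := dense_of_mem_residual h1
    obtain ⟨y, hy⟩ := h2.nonempty
    exact hy
  set β : ℕ → Pt S → ℝ≥0∞ := fun n z => coin {x | (z, x) ∈ B n} with hβ
  have hβm : ∀ n, Measurable (β n) := fun n => meas_beta (hB n)
  set K : ℕ → Set (Pt S) := fun n₀ => {z | Tendsto (fun n => β n z) atTop (𝓝 0) ∧
    ∀ n, n₀ ≤ n → (z, z ξ) ∈ B n} with hK
  have hKm : ∀ n₀, MeasurableSet (K n₀) := by
    intro n₀
    have a1 : MeasurableSet {z : Pt S | Tendsto (fun n => β n z) atTop (𝓝 0)} :=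
      measurableSet_tendsto _ hβm
    have a2 : MeasurableSet {z : Pt S | ∀ n, n₀ ≤ n → (z, z ξ) ∈ B n} := by
      have : {z : Pt S | ∀ n, n₀ ≤ n → (z, z ξ) ∈ B n} =
          ⋂ n, ⋂ (_ : n₀ ≤ n), {z : Pt S | (z, z ξ) ∈ B n} := by
        ext z; simp
      rw [this]
      exact MeasurableSet.iInter fun n => MeasurableSet.iInter fun _ => meas_diag (hB n) ξ
    exact a1.inter a2
  have hun : {z : Pt S | Tendsto (fun n => coin {x | (z, x) ∈ B n}) atTop (𝓝 0) ∧
      ∀ᶠ n in atTop, (z, z ξ) ∈ B n} = ⋃ n₀, K n₀ := by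
    ext z
    simp only [mem_ofPred_eq, mem_iUnion, hK, eventually_atTop]
    constructor
    · rintro ⟨h1, n₀, h2⟩
      exact ⟨n₀, h1, h2⟩
    · rintro ⟨n₀, h1, h2⟩
      exact ⟨h1, n₀, h2⟩
  rw [hun]
  apply nul_iUnion
  intro n₀
  by_contra hnul
  obtain ⟨δ, hδ0, hδ⟩ := star S (K n₀) (hKm n₀) hnul
  have hδ1 : δ ≤ 1 := by
    obtain ⟨φ, hφ⟩ := hδ.exists
    exact hφ.trans prob_le_one
  have hδt : δ ≠ ⊤ := (hδ1.trans_lt ENNReal.one_lt_top).ne
  -- real version of δ
  have h8 : δ / 8 ≠ 0 := by simp [hδ0]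
  set A : ℕ → Set (Pt S) := fun n₁ => {z | z ∈ K n₀ ∧ ∀ n, n₁ ≤ n → β n z ≤ δ / 8} with hA
  have hAm : ∀ n₁, MeasurableSet (A n₁) := by
    intro n₁
    refine (hKm n₀).inter ?_
    have : {z : Pt S | ∀ n, n₁ ≤ n → β n z ≤ δ / 8} =
        ⋂ n, ⋂ (_ : n₁ ≤ n), {z : Pt S | β n z ≤ δ / 8} := by
      ext z; simp
    have h2 : MeasurableSet {z : Pt S | ∀ n, n₁ ≤ n → β n z ≤ δ / 8} := by
      rw [this]
      exact MeasurableSet.iInter fun n => MeasurableSet.iInter fun _ =>
        measurableSet_le (hβm n) measurable_const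
    exact h2
  have hAmono : Monotone A := by
    intro a b hab z hz
    exact ⟨hz.1, fun n hn => hz.2 n (hab.trans hn)⟩
  have hAU : ⋃ n₁, A n₁ = K n₀ := by
    ext z
    simp only [mem_iUnion, hA, mem_ofPred_eq]
    constructor
    · rintro ⟨n₁, h1, -⟩; exact h1
    · intro hz
      have := hz.1.eventually (Iic_mem_nhds (pos_iff_ne_zero.2 h8))
      obtain ⟨n₁, hn₁⟩ := eventually_atTop.1 this
      exact ⟨n₁, hz, hn₁⟩
  have h34 : 3 * δ / 4 < δ := by
    rw [ENNReal.div_lt_iff (by norm_num) (by norm_num)]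
    have h : (3 : ℝ≥0∞) < 4 := by norm_num
    have := ENNReal.mul_lt_mul_right hδ0 hδt h
    rw [mul_comm δ 4]
    first
      | exact this
      | (rw [mul_comm δ 3, mul_comm δ 4] at this; exact this)
  -- some E_{n₁} is not residually avoided
  have hex : ∃ n₁, ¬ ∀ᶠ φ in residual (Ph S), Agr ∅ (fun _ => cst S false) φ →
      φ ∉ {φ : Ph S | 3 * δ / 4 ≤ pr S φ (A n₁)} := by
    by_contra hcon
    push Not at hcon
    have h1 : ∀ᶠ φ in residual (Ph S), ∀ n₁, Agr ∅ (fun _ => cst S false) φ →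
      φ ∉ {φ : Ph S | 3 * δ / 4 ≤ pr S φ (A n₁)} := eventually_countable_forall.2 hcon
    obtain ⟨φ, hφ1, hφ2⟩ := (h1.and hδ).exists
    have ht : Tendsto (fun n => pr S φ (A n)) atTop (𝓝 (pr S φ (K n₀))) := by
      have h3 : Monotone fun n => {ω | zz S φ ω ∈ A n} := fun a b hab ω hω => hAmono hab hω
      have h4 := tendsto_measure_iUnion_atTop (μ := PP S) h3
      have h5 : (⋃ n, {ω | zz S φ ω ∈ A n}) = {ω | zz S φ ω ∈ K n₀} := by
        rw [← hAU]; ext ω; simp
      rw [h5] at h4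
      exact h4
    have h6 : 3 * δ / 4 < pr S φ (K n₀) := h34.trans_le hφ2
    obtain ⟨n, hn⟩ := (ht.eventually (Ioi_mem_nhds h6)).exists
    exact hφ1 n (fun p hp => absurd hp (Finset.notMem_empty p)) (le_of_lt hn)
  obtain ⟨n₁, hn₁⟩ := hex
  obtain ⟨F, φ₁, -, -, hF⟩ := cyl S {φ : Ph S | 3 * δ / 4 ≤ pr S φ (A n₁)}
    (bm S (A n₁) (hAm n₁) _) ∅ (fun _ => cst S false) hn₁
  -- supports
  choose sup hsup using fun p : S.C × ℕ => (φ₁ p).2
  have hbd : ∃ M : ℕ, (∀ p ∈ F, p.2 < M) ∧ ∀ p ∈ F, ∀ q ∈ sup p, q.2 < M := by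
    refine ⟨(F ∪ F.biUnion sup).sup (fun q => q.2 + 1), ?_, ?_⟩
    · intro p hp
      exact Finset.le_sup (f := fun q : S.C × ℕ => q.2 + 1) (Finset.mem_union_left _ hp)
    · intro p hp q hq
      exact Finset.le_sup (f := fun q : S.C × ℕ => q.2 + 1)
        (Finset.mem_union_right _ (Finset.mem_biUnion.2 ⟨p, hp, hq⟩))
  obtain ⟨M, hM1, hM2⟩ := hbd
  have h4' : δ / 4 ≠ 0 := by simp [hδ0]
  obtain ⟨n, hn0, hn1, hnM, htail⟩ : ∃ n, n₀ ≤ n ∧ n₁ ≤ n ∧ M ≤ n ∧
      rho {s | 2 ^ n < s.1} ≤ δ / 4 := by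
    obtain ⟨n, h1, h2, h3, h4⟩ := ((eventually_ge_atTop n₀).and ((eventually_ge_atTop n₁).and
      ((eventually_ge_atTop M).and (tail_small (δ / 4) h4')))).exists
    exact ⟨n, h1, h2, h3, h4⟩
  have hMn : M ≤ 2 ^ n := hnM.trans Nat.lt_two_pow_self.le
  set J : Finset ℕ := blk n with hJ
  have hJge : ∀ m ∈ J, 2 ^ n ≤ m := fun m hm => (Finset.mem_Ico.1 hm).1
  set F' : Finset (S.C × ℕ) := F ∪ J.image (fun m => (ξ, m)) with hF'
  set φx : (ℕ → Bool) → Ph S := fun x p => if p.1 = ξ ∧ p.2 ∈ J then cst S (x p.2) else φ₁ p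
    with hφx
  have hFJ : ∀ p ∈ F, ¬ (p.1 = ξ ∧ p.2 ∈ J) := by
    rintro p hp ⟨-, h2⟩
    have := hJge _ h2
    have := hM1 p hp
    omega
  set C : (ℕ → Bool) → Set (Pt S) := fun x => {z | (z, x) ∈ B n ∧ β n z ≤ δ / 8} with hC
  have hCm : ∀ x, MeasurableSet (C x) := by
    intro x
    refine MeasurableSet.inter ?_ (measurableSet_le (hβm n) measurable_const)
    exact (measurable_id.prodMk measurable_const) (hB n)
  have hβind : ∀ z z' : Pt S, (∀ c, c ≠ ξ → z c = z' c) → β n z = β n z' := by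
    intro z z' h
    simp only [hβ]
    congr 1
    ext x
    exact hind n z z' x h
  have hCind : ∀ x, ∀ z z' : Pt S, (∀ c, c ≠ ξ → z c = z' c) → (z ∈ C x ↔ z' ∈ C x) := by
    intro x z z' h
    simp only [hC, mem_ofPred_eq]
    rw [hind n z z' x h, hβind z z' h]
  -- (1)
  have h1 : ∀ x, ∀ᶠ φ in residual (Ph S), Agr F' (φx x) φ → δ / 2 ≤ pr S φ (C x) := by
    intro x
    filter_upwards [hF] with φ hφ hagr
    have hagrF : Agr F φ₁ φ := by
      intro p hp
      rw [hagr p (Finset.mem_union_left _ hp)]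
      simp only [hφx]
      rw [if_neg (hFJ p hp)]
    have h2 : 3 * δ / 4 ≤ pr S φ (A n₁) := hφ hagrF
    have hsub : {ω | zz S φ ω ∈ A n₁} ⊆ {ω | zz S φ ω ∈ C x} ∪ {ω | ω ξ ∈ {s | 2 ^ n < s.1}} := by
      intro ω hω
      by_cases hlt : 2 ^ n < (ω ξ).1
      · exact Or.inr hlt
      · left
        have hz : zz S φ ω ∈ A n₁ := hω
        have hval : ∀ m ∈ blk n, zz S φ ω ξ m = x m := by
          intro m hm
          rw [zz_eq]
          have hm' := hJge m hm
          rw [if_neg (by push Not; exact ⟨by omega, hξ⟩)]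
          have h3 : φ (ξ, m) = cst S (x m) := by
            rw [hagr (ξ, m) (Finset.mem_union_right _ (Finset.mem_image_of_mem _ hm))]
            simp only [hφx]
            rw [if_pos ⟨trivial, hm⟩]
          rw [h3]
          rfl
        refine ⟨?_, hz.2 n hn1⟩
        rw [hblk n (zz S φ ω) x (zz S φ ω ξ) (fun m hm => (hval m hm).symm)]
        exact hz.1.2 n hn0
    have h3 : pr S φ (A n₁) ≤ pr S φ (C x) + δ / 4 := by
      refine (measure_mono hsub).trans ((measure_union_le _ _).trans ?_)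
      have h4 : PP S {ω | ω ξ ∈ {s : ℕ × (ℕ → Bool) | 2 ^ n < s.1}} = rho {s | 2 ^ n < s.1} :=
        eval_marginal ξ _ (measurable_fst (measurableSet_Ioi (a := 2 ^ n)))
      rw [h4]
      exact add_le_add le_rfl htail
    have h5 : δ / 2 + δ / 4 = 3 * δ / 4 := by
      rw [← ENNReal.toReal_eq_toReal_iff' (by finiteness) (by finiteness)]
      rw [ENNReal.toReal_add (by finiteness) (by finiteness), ENNReal.toReal_div,
        ENNReal.toReal_div, ENNReal.toReal_div, ENNReal.toReal_mul]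
      simp
      ring
    have h6 : δ / 2 + δ / 4 ≤ pr S φ (C x) + δ / 4 := by rw [h5]; exact h2.trans h3
    exact (ENNReal.add_le_add_iff_right (by finiteness)).1 h6
  -- (2)
  have h2 : ∀ x, ∀ᶠ φ in residual (Ph S), Agr F' (φx fun _ => false) φ → δ / 2 ≤ pr S φ (C x) := by
    intro x
    obtain ⟨Θ, hΘ1, hΘ2, hΘ3, hΘ4⟩ := flp S ξ hξ hsee J x
    have ht : Tendsto Θ (residual (Ph S)) (residual (Ph S)) :=
      tendsto_residual_of_isOpenMap Θ.continuous Θ.isOpenMap
    filter_upwards [ht.eventually (h1 x)] with φ hφ hagr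
    have hag : Agr F' (φx x) (Θ φ) := by
      intro p hp
      obtain ⟨c, m⟩ := p
      by_cases hc : c = ξ ∧ m ∈ J
      · obtain ⟨rfl, hm⟩ := hc
        have h3 : φ (c, m) = cst S false := by
          rw [hagr (c, m) hp]
          simp only [hφx]
          rw [if_pos ⟨trivial, hm⟩]
        apply Subtype.ext
        funext z
        rw [hΘ2 φ m hm z, h3]
        simp only [hφx]
        rw [if_pos ⟨trivial, hm⟩]
        simp [cst]
      · have hpF : (c, m) ∈ F := by
          rcases Finset.mem_union.1 hp with h | h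
          · exact h
          · obtain ⟨m', hm', he⟩ := Finset.mem_image.1 h
            have he1 : ξ = c := congrArg Prod.fst he
            have he2 : m' = m := congrArg Prod.snd he
            exact absurd ⟨he1.symm, he2 ▸ hm'⟩ hc
        have h3 : φ (c, m) = φ₁ (c, m) := by
          rw [hagr (c, m) hp]
          simp only [hφx]
          rw [if_neg hc]
        have h4 : φx x (c, m) = φ₁ (c, m) := by
          simp only [hφx]
          rw [if_neg hc]
        rw [h4, ← h3]
        by_cases hcξ : c = ξ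
        · subst hcξ
          exact hΘ3 φ m fun hm => hc ⟨rfl, hm⟩
        · apply hΘ4 φ c m hcξ
          intro z z' hzz
          rw [h3]
          apply hsup (c, m)
          intro q hq
          apply hzz
          rintro ⟨-, hqJ⟩
          have := hJge _ hqJ
          have := hM2 _ hpF q hq
          omega
    rw [← hΘ1 φ (C x) (hCm x) (hCind x)]
    exact hφ hag
  -- (3)
  have h3 : ∀ᶠ φ in residual (Ph S), ∀ u : Finset ℕ, Agr F' (φx fun _ => false) φ →
      δ / 2 ≤ pr S φ (C fun m => decide (m ∈ u)) :=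
    eventually_countable_forall.2 fun u => h2 _
  have hopen : IsOpen {φ : Ph S | Agr F' (φx fun _ => false) φ} := by
    have : {φ : Ph S | Agr F' (φx fun _ => false) φ} =
        ⋂ p ∈ F', (fun φ : Ph S => φ p) ⁻¹' {φx (fun _ => false) p} := by
      ext φ; simp [Agr]
    rw [this]
    exact isOpen_biInter_finset fun p _ => (isOpen_discrete _).preimage (continuous_apply p)
  obtain ⟨φ, hφagr, hφ⟩ := (dense_of_mem_residual h3).inter_open_nonempty _ hopen
    ⟨φx fun _ => false, fun p _ => rfl⟩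
  have h4 : ∀ x, δ / 2 ≤ pr S φ (C x) := by
    intro x
    have h5 := hφ (J.filter fun m => x m = true) hφagr
    have h6 : C (fun m => decide (m ∈ J.filter fun m => x m = true)) = C x := by
      ext z
      simp only [hC, mem_ofPred_eq]
      rw [hblk n z (fun m => decide (m ∈ J.filter fun m => x m = true)) x ?_]
      intro m hm
      simp [hJ, hm]
    rw [← h6]
    exact h5
  -- Fubini
  set R : Set (Om S × (ℕ → Bool)) := {q | (zz S φ q.1, q.2) ∈ B n ∧ β n (zz S φ q.1) ≤ δ / 8}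
    with hR
  have hzm := mz S φ
  have hRm : MeasurableSet R := by
    refine MeasurableSet.inter ?_ ?_
    · have : Measurable fun q : Om S × (ℕ → Bool) => (zz S φ q.1, q.2) :=
        (hzm.comp measurable_fst).prodMk measurable_snd
      exact this (hB n)
    · exact measurableSet_le ((hβm n).comp (hzm.comp measurable_fst)) measurable_const
  have e1 : (PP S).prod coin R = ∫⁻ ω, coin (Prod.mk ω ⁻¹' R) ∂(PP S) := Measure.prod_apply hRm
  have e2 : (PP S).prod coin R = ∫⁻ x, PP S ((fun ω => (ω, x)) ⁻¹' R) ∂coin :=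
    Measure.prod_apply_symm hRm
  have u1 : (PP S).prod coin R ≤ δ / 8 := by
    rw [e1]
    calc ∫⁻ ω, coin (Prod.mk ω ⁻¹' R) ∂(PP S) ≤ ∫⁻ _, δ / 8 ∂(PP S) := by
          apply lintegral_mono
          intro ω
          by_cases hb : β n (zz S φ ω) ≤ δ / 8
          · refine le_trans (measure_mono ?_) hb
            intro x hx
            exact hx.1
          · have : (Prod.mk ω ⁻¹' R : Set (ℕ → Bool)) = ∅ := by
              ext x
              simp only [mem_preimage, hR, mem_ofPred_eq, mem_empty_iff_false, iff_false]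
              exact fun h => hb h.2
            show coin (Prod.mk ω ⁻¹' R) ≤ δ / 8
            rw [this]
            simp
      _ = δ / 8 := by simp
  have u2 : δ / 2 ≤ (PP S).prod coin R := by
    rw [e2]
    calc δ / 2 = ∫⁻ _, δ / 2 ∂coin := by simp
      _ ≤ ∫⁻ x, PP S ((fun ω => (ω, x)) ⁻¹' R) ∂coin := by
          apply lintegral_mono
          intro x
          exact h4 x
  have u3 : δ / 2 ≤ δ / 8 := u2.trans u1
  have u4 := ENNReal.toReal_mono (by finiteness) u3
  rw [ENNReal.toReal_div, ENNReal.toReal_div] at u4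
  have u5 : 0 < δ.toReal := ENNReal.toReal_pos hδ0 hδt
  simp at u4
  linarith

end NU.PkSLA
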